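import Pool.Agent.Lib.MP_b5021c_nt.IfaceS1

/-!
# Row S_CL2: one closing of a light ray, summary

`core` is the common argument (any factor `fac` in the case of a pure factor, any pair of loads);
`cl2` is the row.
-/

set_option autoImplicit false

namespace Pool.Agent.MP_b5021c_nt.H22

open Pool.Agent.B5
open scoped LaurentPolynomial

/-- The three alternatives, for one closed element which is not simple or has no small non-pure
factor. -/
theorem core (hG1 : G1S) (hG3 : G3S) {O : Type} [CommRing O] [IsDomain O]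
    [IsPrincipalIdealRing O] [Coef O]
    {P L : Type} [Fintype P] [DecidableEq P] [AddCommGroup L] [Module.Free ℤ L]
    [Module.Finite ℤ L] (phi : L →+ (P → ℤ)) (D : AO O L) (S : L) (i0 : P) (eta : (RO O)ˣ)
    (h : co phi i0 S = 1) (c : RO O) (n : ℕ) (G : Fin n → AO O (Ker (co phi i0)))
    (fd : FD phi D S i0 eta h c n G) (fac : ℝ)
    (hrk : Module.finrank ℤ L = rk (supp (cl (co phi i0) S h eta D)) + 1)
    (hrka : snp phi S i0 G = ∅ →
      rk (supp (cl (co phi i0) S h eta D)) ≤ ∑ i ∈ big G, rk (supp (G i)) ∨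
      (rk (supp (cl (co phi i0) S h eta D)) ≤ ∑ i ∈ big G, rk (supp (G i)) + 1 ∧
        M (D.coeff 0 + (eta : RO O) * D.coeff S) ≤ M (D.coeff 0) * fac))
    (hor : snp phi S i0 G = ∅ ∨
      ¬ Simple (D.coeff 0) (D.coeff 0 + (eta : RO O) * D.coeff S) c G) :
    ((big G).card = 1 ∧ M c = 1 ∧
          Module.finrank ℤ L ≤ 1 + ∑ i ∈ big G, rk (supp (G i))) ∨
    ((big G).card = 1 ∧ M c = 1 ∧
          Module.finrank ℤ L ≤ 2 + ∑ i ∈ big G, rk (supp (G i)) ∧
          M (D.coeff 0 + (eta : RO O) * D.coeff S) ≤ M (D.coeff 0) * fac) ∨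
    (((big G).card = 1 → M c = 1 →
            2 * M (D.coeff 0 + (eta : RO O) * D.coeff S) ^ 2 ≤ M (D.coeff 0) ^ 2) ∧
          Module.finrank ℤ L ≤ 2 + (snp phi S i0 G).card + ∑ i ∈ big G, rk (supp (G i)) ∧
          ((snp phi S i0 G).card : ℝ) * ∏ i ∈ big G, M ((G i).coeff 0) ≤
            2 * M (D.coeff 0)) := by
  by_cases hs : Simple (D.coeff 0) (D.coeff 0 + (eta : RO O) * D.coeff S) c G
  · have he : snp phi S i0 G = ∅ := hor.resolve_right (fun hn => hn hs)
    rcases hrka he with h1 | ⟨h1, h2⟩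
    · exact Or.inl ⟨hs.1, hs.2.1, by omega⟩
    · exact Or.inr (Or.inl ⟨hs.1, hs.2.1, by omega, h2⟩)
  · refine Or.inr (Or.inr ⟨?_, ?_, hG3 O P L phi D S i0 eta h c n G fd⟩)
    · intro h1 h2
      by_contra h3
      exact hs ⟨h1, h2, lt_of_not_ge h3⟩
    · have h1 := hG1 O P L phi D S i0 eta h c n G fd
      omega

/-- (CL2) -/
theorem cl2 (hSel : SelS) (hRka : RkaS) (hG1 : G1S) (hG3 : G3S) (hAdj : AdjSyS) : Cl2S := by
  intro O _ _ _ _ P L _ _ _ _ _ phi D S i0 e₁ e₂ h dd h3 hray hadj hv1 hv2 hmn hfull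
  obtain ⟨e, he, hrk, c, n, G, fd, hor⟩ :=
    hSel O P L phi D S i0 e₁ e₂ h dd h3 hray hadj hv1 hv2 hmn hfull
  have hmne : ‖mn ((e : RO O) * D.coeff S) (D.coeff 0)‖ =
      ‖mn ((e₁ : RO O) * D.coeff S) (D.coeff 0)‖ := by
    rcases he with rfl | rfl
    · rfl
    · exact ((hAdj O e₁ e hadj).2.2 _ _).symm
  refine ⟨e, c, n, G, he, fd, ?_⟩
  rw [← hmne]
  exact core hG1 hG3 phi D S i0 e h c n G fd _ hrk (hRka O P L phi D S i0 e h c n G fd) hor

end Pool.Agent.MP_b5021c_nt.H22
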